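import Pool.Agent.H930Z.Dir.Spec

/-! The boundary condition along the boundary curve. -/

open MeasureTheory Set Filter Topology Real

noncomputable section

namespace Pool.Agent.H582Z.Dir

open H930Z.Dir

lemma clm_apply (L : ℝ × ℝ →L[ℝ] ℝ) (v : ℝ × ℝ) :
    L v = v.1 * L (1, 0) + v.2 * L (0, 1) := by
  have : v = v.1 • ((1, 0) : ℝ × ℝ) + v.2 • ((0, 1) : ℝ × ℝ) := by
    ext <;> simp
  conv_lhs => rw [this]
  rw [map_add, map_smul, map_smul]
  simp

lemma clm_apply2 (L : ℝ × ℝ →L[ℝ] ℝ × ℝ) (v : ℝ × ℝ) :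
    L v = v.1 • L (1, 0) + v.2 • L (0, 1) := by
  have : v = v.1 • ((1, 0) : ℝ × ℝ) + v.2 • ((0, 1) : ℝ × ℝ) := by
    ext <;> simp
  conv_lhs => rw [this]
  rw [map_add, map_smul, map_smul]

lemma normSq_nrm (φ : ℝ × ℝ → ℝ) (x : ℝ × ℝ) (h : fderiv ℝ φ x ≠ 0) :
    Complex.normSq (nrm φ x) = 1 := by
  set p := fderiv ℝ φ x (1, 0) with hp
  set q := fderiv ℝ φ x (0, 1) with hq
  have hpos : 0 < p ^ 2 + q ^ 2 := by
    by_contra hc
    have h1 : p = 0 := by nlinarith [sq_nonneg p, sq_nonneg q]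
    have h2 : q = 0 := by nlinarith [sq_nonneg p, sq_nonneg q]
    apply h
    refine ContinuousLinearMap.ext fun v => ?_
    rw [clm_apply, ← hp, ← hq, h1, h2]
    simp
  have hs : 0 < √(p ^ 2 + q ^ 2) := Real.sqrt_pos.2 hpos
  have hs2 : √(p ^ 2 + q ^ 2) ^ 2 = p ^ 2 + q ^ 2 := Real.sq_sqrt hpos.le
  unfold nrm
  rw [← hp, ← hq, mul_comm Complex.I, Complex.normSq_add_mul_I, div_pow, div_pow, hs2]
  field_simp

lemma cs_mem (t : ℝ) : cs t ∈ cdisc := by
  simp [cs, cdisc]

lemma phi_zero {Γ : ℝ × ℝ → ℝ × ℝ} (hΓ : Dom Γ) {φ : ℝ × ℝ → ℝ} (hφ : ContDiff ℝ 1 φ)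
    (hΩ : Γ '' disc = {x | φ x < 0}) (t : ℝ) : φ (Γ (cs t)) = 0 := by
  apply le_antisymm
  · have hc : Continuous fun r : ℝ => φ (Γ (r • cs t)) :=
      hφ.continuous.comp (hΓ.smooth.continuous.comp (continuous_id.smul continuous_const))
    have ht : Tendsto (fun r : ℝ => φ (Γ (r • cs t))) (𝓝[<] 1) (𝓝 (φ (Γ (cs t)))) := by
      have := (hc.tendsto 1).mono_left (nhdsWithin_le_nhds (s := Iio (1 : ℝ)))
      simpa using this
    apply le_of_tendsto ht
    have hm : Ioo (0 : ℝ) 1 ∈ 𝓝[<] (1 : ℝ) := Ioo_mem_nhdsLT (by norm_num)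
    filter_upwards [hm] with r hr
    have hd : r • cs t ∈ disc := by
      have h1 := Real.cos_sq_add_sin_sq t
      simp only [disc, cs, Prod.smul_mk, smul_eq_mul, mem_ofPred_eq]
      have : (r * Real.cos t) ^ 2 + (r * Real.sin t) ^ 2 = r ^ 2 := by
        rw [mul_pow, mul_pow, ← mul_add, h1, mul_one]
      rw [this]
      nlinarith [hr.1, hr.2]
    have : Γ (r • cs t) ∈ Γ '' disc := mem_image_of_mem _ hd
    rw [hΩ] at this
    exact le_of_lt this
  · by_contra hc
    have : Γ (cs t) ∈ Γ '' disc := by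
      rw [hΩ]; exact not_le.1 hc
    obtain ⟨w, hw, hw2⟩ := this
    have hw3 : w ∈ cdisc := le_of_lt (show w.1 ^ 2 + w.2 ^ 2 < 1 from hw)
    have := hΓ.inj hw3 (cs_mem t) hw2
    rw [this] at hw
    simp [disc, cs] at hw

lemma hasDerivAt_cs (t : ℝ) : HasDerivAt cs (-Real.sin t, Real.cos t) t :=
  (Real.hasDerivAt_cos t).prodMk (Real.hasDerivAt_sin t)

lemma key (S f g : ℝ → ℂ) (S' f' g' : ℂ) (θ : ℝ) (hS : HasDerivAt S S' θ)
    (hf : HasDerivAt f f' θ) (hg : HasDerivAt g g' θ)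
    (hZ : ∀ t, (Complex.I * S t * f t * starRingEnd ℂ (g t)).im = 0) (hS0 : S θ ≠ 0)
    (hn : Complex.normSq (f θ) = Complex.normSq (g θ)) :
    (starRingEnd ℂ (g θ) * g').im - (starRingEnd ℂ (f θ) * f').im =
      Complex.normSq (f θ) * (S' / S θ).im := by
  by_cases hf0 : f θ = 0
  · have hg0 : g θ = 0 := by
      rw [hf0, map_zero] at hn
      exact Complex.normSq_eq_zero.1 hn.symm
    simp [hf0, hg0]
  have hg0 : g θ ≠ 0 := by
    intro h
    rw [h, map_zero] at hn
    exact hf0 (Complex.normSq_eq_zero.1 hn)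
  have hcg : HasDerivAt (fun t => starRingEnd ℂ (g t)) (starRingEnd ℂ g') θ := by
    have := Complex.conjCLE.toContinuousLinearMap.hasFDerivAt.comp_hasDerivAt θ hg
    exact this
  have hZd := (((hS.const_mul Complex.I).mul hf).mul hcg)
  have him := Complex.imCLM.hasFDerivAt.comp_hasDerivAt θ hZd
  have hz : (Complex.imCLM ∘
      ((fun y => Complex.I * S y) * f * fun t => starRingEnd ℂ (g t))) = fun _ => 0 := by
    funext t
    exact hZ t
  rw [hz] at him
  have h0 := him.unique (hasDerivAt_const θ (0 : ℝ))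
  simp only [Complex.imCLM_apply, Pi.mul_apply] at h0
  have hcg0 : starRingEnd ℂ (g θ) ≠ 0 := by simpa using hg0
  set Z := Complex.I * S θ * f θ * starRingEnd ℂ (g θ) with hZdef
  have hZ0 : Z ≠ 0 := mul_ne_zero (mul_ne_zero (mul_ne_zero Complex.I_ne_zero hS0) hf0) hcg0
  have hZim : Z.im = 0 := hZ θ
  have hq : ((Complex.I * S' * f θ + Complex.I * S θ * f') * starRingEnd ℂ (g θ) +
      Complex.I * S θ * f θ * starRingEnd ℂ g') =
      Z * (S' / S θ + f' / f θ + starRingEnd ℂ (g' / g θ)) := by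
    rw [hZdef, map_div₀]
    field_simp
  rw [hq, Complex.mul_im, hZim, zero_mul, add_zero] at h0
  have hZre : Z.re ≠ 0 := by
    intro h
    exact hZ0 (Complex.ext h hZim)
  have h1 := (mul_eq_zero.1 h0).resolve_left hZre
  rw [Complex.add_im, Complex.add_im, Complex.conj_im] at h1
  have hfn : Complex.normSq (f θ) ≠ 0 := by simpa using hf0
  have e1 : (starRingEnd ℂ (f θ) * f').im = Complex.normSq (f θ) * (f' / f θ).im := by
    have : starRingEnd ℂ (f θ) * f' = (Complex.normSq (f θ) : ℂ) * (f' / f θ) := by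
      rw [Complex.normSq_eq_conj_mul_self]
      field_simp
    rw [this, Complex.im_ofReal_mul]
  have e2 : (starRingEnd ℂ (g θ) * g').im = Complex.normSq (g θ) * (g' / g θ).im := by
    have : starRingEnd ℂ (g θ) * g' = (Complex.normSq (g θ) : ℂ) * (g' / g θ) := by
      rw [Complex.normSq_eq_conj_mul_self]
      field_simp
    rw [this, Complex.im_ofReal_mul]
  rw [e1, e2, ← hn]
  have : (S' / S θ).im = (g' / g θ).im - (f' / f θ).im := by linarith
  rw [this]
  ring

/-- the tangent vector of the boundary curve -/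
def tg (Γ : ℝ × ℝ → ℝ × ℝ) (t : ℝ) : ℝ × ℝ :=
  (-Real.sin t) • d1 Γ (cs t) + (Real.cos t) • d2 Γ (cs t)

lemma hasDerivAt_gam {Γ : ℝ × ℝ → ℝ × ℝ} (hΓ : Dom Γ) (t : ℝ) :
    HasDerivAt (fun t => Γ (cs t)) (tg Γ t) t := by
  have hd : DifferentiableAt ℝ Γ (cs t) := hΓ.smooth.differentiable (by norm_num) _
  have := hd.hasFDerivAt.comp_hasDerivAt t (hasDerivAt_cs t)
  rw [clm_apply2] at this
  exact this

lemma eT (Γ : ℝ × ℝ → ℝ × ℝ) (t : ℝ) :
    toC (cs t) * Tm Γ (cs t) = -2 * Complex.I * toC (tg Γ t) := by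
  have h1 := Real.cos_sq_add_sin_sq t
  unfold Tm tg toC cs
  generalize d1 Γ (Real.cos t, Real.sin t) = A
  generalize d2 Γ (Real.cos t, Real.sin t) = B
  generalize Real.cos t = c at *
  generalize Real.sin t = s at *
  apply Complex.ext
  · simp [pow_two]
    linear_combination (-(A.1 * c) + B.2 * c - A.2 * s - B.1 * s) * h1
  · simp [pow_two]
    linear_combination (A.1 * s - B.2 * s - A.2 * c - B.1 * c) * h1

lemma tg_ne {Γ : ℝ × ℝ → ℝ × ℝ} (hΓ : Dom Γ) (t : ℝ) : toC (tg Γ t) ≠ 0 := by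
  intro h
  have hj := hΓ.pos _ (cs_mem t)
  have h1 := Real.cos_sq_add_sin_sq t
  have hre := congrArg Complex.re h
  have him := congrArg Complex.im h
  unfold jac at hj
  unfold toC tg at hre him
  generalize d1 Γ (cs t) = A at *
  generalize d2 Γ (cs t) = B at *
  generalize Real.cos t = c at *
  generalize Real.sin t = s at *
  simp at hre him
  have e1 : c * (A.1 * B.2 - A.2 * B.1) = 0 := by linear_combination A.1 * him - A.2 * hre
  have e2 : s * (A.1 * B.2 - A.2 * B.1) = 0 := by linear_combination B.1 * him - B.2 * hre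
  have hc : c = 0 := (mul_eq_zero.1 e1).resolve_right hj.ne'
  have hs : s = 0 := (mul_eq_zero.1 e2).resolve_right hj.ne'
  rw [hc, hs] at h1
  norm_num at h1

lemma diff_toC : Differentiable ℝ toC := by
  unfold toC
  exact ((Complex.ofRealCLM.differentiable.comp differentiable_fst).add
    ((Complex.ofRealCLM.differentiable.comp differentiable_snd).mul_const _))

lemma diff_Tm {Γ : ℝ × ℝ → ℝ × ℝ} (hΓ : Dom Γ) : Differentiable ℝ (Tm Γ) := by
  have hF : Differentiable ℝ (fderiv ℝ Γ) :=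
    (hΓ.smooth.fderiv_right (m := 1) (by norm_num)).differentiable (by norm_num)
  have h1 : Differentiable ℝ (d1 Γ) := hF.clm_apply (differentiable_const _)
  have h2 : Differentiable ℝ (d2 Γ) := hF.clm_apply (differentiable_const _)
  have a1 : Differentiable ℝ fun w => toC (d1 Γ w) := diff_toC.comp h1
  have a2 : Differentiable ℝ fun w => toC (d2 Γ w) := diff_toC.comp h2
  have a3 : Differentiable ℝ fun w => starRingEnd ℂ (toC w) :=
    Complex.conjCLE.differentiable.comp diff_toC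
  unfold Tm
  exact (a1.sub (a2.const_mul _)).sub ((a1.add (a2.const_mul _)).mul (a3.pow 2))

lemma hasDerivAt_e (t : ℝ) :
    HasDerivAt (fun t => toC (cs t)) (Complex.I * toC (cs t)) t := by
  have h1 : HasDerivAt (fun t : ℝ => ((Real.cos t : ℝ) : ℂ)) ((-Real.sin t : ℝ) : ℂ) t :=
    (Real.hasDerivAt_cos t).ofReal_comp
  have h2 : HasDerivAt (fun t : ℝ => ((Real.sin t : ℝ) : ℂ)) ((Real.cos t : ℝ) : ℂ) t :=
    (Real.hasDerivAt_sin t).ofReal_comp
  have h3 := h1.add (h2.mul_const Complex.I)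
  have e : ((-Real.sin t : ℝ) : ℂ) + ((Real.cos t : ℝ) : ℂ) * Complex.I =
      Complex.I * toC (cs t) := by
    unfold toC cs
    generalize Real.cos t = c
    generalize Real.sin t = s
    apply Complex.ext <;> simp
  rw [e] at h3
  exact h3

theorem bdry : S_bdry := by
  intro Γ hΓ φ hφ hΩ hd f g hf hg hb
  have hN : ∀ x, φ x = 0 → Complex.normSq (f x) = Complex.normSq (g x) := by
    intro x hx
    rw [← hb x hx, map_mul, map_mul, normSq_nrm φ x (hd x hx)]
    simp
  refine ⟨hN, fun θ => ⟨phi_zero hΓ hφ hΩ θ, ?_⟩⟩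
  have hz := phi_zero hΓ hφ hΩ
  have hfd : DifferentiableAt ℝ (fun t => f (Γ (cs t))) θ :=
    (hf.differentiable (by norm_num) _).comp θ (hasDerivAt_gam hΓ θ).differentiableAt
  have hgd : DifferentiableAt ℝ (fun t => g (Γ (cs t))) θ :=
    (hg.differentiable (by norm_num) _).comp θ (hasDerivAt_gam hΓ θ).differentiableAt
  have hTd : DifferentiableAt ℝ (fun t => Tm Γ (cs t)) θ :=
    (diff_Tm hΓ _).comp θ (hasDerivAt_cs θ).differentiableAt
  have hS := (hasDerivAt_e θ).mul hTd.hasDerivAt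
  have hS0 : toC (cs θ) * Tm Γ (cs θ) ≠ 0 := by
    rw [eT]
    exact mul_ne_zero (mul_ne_zero (by norm_num) Complex.I_ne_zero) (tg_ne hΓ θ)
  have horth : ∀ t, (tg Γ t).1 * fderiv ℝ φ (Γ (cs t)) (1, 0) +
      (tg Γ t).2 * fderiv ℝ φ (Γ (cs t)) (0, 1) = 0 := by
    intro t
    have h1 : DifferentiableAt ℝ φ (Γ (cs t)) := hφ.differentiable (by norm_num) _
    have h2 := h1.hasFDerivAt.comp_hasDerivAt t (hasDerivAt_gam hΓ t)
    have h3 : (φ ∘ fun t => Γ (cs t)) = fun _ => 0 := by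
      funext s
      exact hz s
    rw [h3] at h2
    have h4 := h2.unique (hasDerivAt_const t (0 : ℝ))
    rw [clm_apply] at h4
    exact h4
  have hk := key ((fun t => toC (cs t)) * fun t => Tm Γ (cs t)) (fun t => f (Γ (cs t)))
    (fun t => g (Γ (cs t))) _ _ _ θ hS hfd.hasDerivAt hgd.hasDerivAt ?_ hS0 (hN _ (hz θ))
  · rw [hk]
    congr 1
    unfold kk
    have hT0 : Tm Γ (cs θ) ≠ 0 := right_ne_zero_of_mul hS0
    have he0 : toC (cs θ) ≠ 0 := left_ne_zero_of_mul hS0
    have : (Complex.I * toC (cs θ) * Tm Γ (cs θ) +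
        toC (cs θ) * deriv (fun t => Tm Γ (cs t)) θ) /
        ((fun t => toC (cs t)) * fun t => Tm Γ (cs t)) θ =
        Complex.I + deriv (fun t => Tm Γ (cs t)) θ / Tm Γ (cs θ) := by
      rw [Pi.mul_apply]
      field_simp
    rw [this]
    simp
  · intro t
    have h1 := horth t
    rw [Pi.mul_apply, eT, ← hb _ (hz t)]
    have e : Complex.I * (-2 * Complex.I * toC (tg Γ t)) * f (Γ (cs t)) *
        starRingEnd ℂ (Complex.I * nrm φ (Γ (cs t)) * f (Γ (cs t))) =
        (Complex.normSq (f (Γ (cs t))) : ℂ) *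
          (-2 * Complex.I * toC (tg Γ t) * starRingEnd ℂ (nrm φ (Γ (cs t)))) := by
      rw [Complex.normSq_eq_conj_mul_self, map_mul, map_mul, Complex.conj_I]
      linear_combination (2 * Complex.I * toC (tg Γ t) * f (Γ (cs t)) *
        starRingEnd ℂ (nrm φ (Γ (cs t))) * starRingEnd ℂ (f (Γ (cs t)))) * Complex.I_mul_I
    rw [e, Complex.im_ofReal_mul]
    apply mul_eq_zero_of_right
    unfold nrm toC
    generalize fderiv ℝ φ (Γ (cs t)) (1, 0) = p at *
    generalize fderiv ℝ φ (Γ (cs t)) (0, 1) = q at *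
    generalize tg Γ t = v at *
    generalize √(p ^ 2 + q ^ 2) = r
    have : v.1 * (p / r) + v.2 * (q / r) = 0 := by
      rw [← mul_div_assoc, ← mul_div_assoc, ← add_div, h1, zero_div]
    generalize p / r = a at *
    generalize q / r = b at *
    simp
    linarith

end Pool.Agent.H582Z.Dir
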